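import Pool.Agent.H84.QQ.Stm

/-!
# Project QQ (helper84): module Q2
-/

set_option autoImplicit false

namespace Pool.Agent.H27.QQ

open Pool.Agent.H84.PP Pool.Agent.H84.QQ

/-- numbers of one residue class in a dyadic interval -/
theorem card_class {S : Finset ℕ} {m lo : ℕ} (hm : 1 ≤ m) (h : ∀ x ∈ S, lo ≤ x ∧ x < 2 * lo)
    (h2 : ∀ x ∈ S, ∀ y ∈ S, (m : ℤ) ∣ (x : ℤ) - y) : (S.card : ℝ) ≤ (lo : ℝ) / m + 1 := by
  classical
  rcases S.eq_empty_or_nonempty with rfl | hne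
  · rw [Finset.card_empty, Nat.cast_zero]
    positivity
  set x₀ := S.min' hne with hx₀
  have hx₀S : x₀ ∈ S := Finset.min'_mem _ _
  have hmin : ∀ x ∈ S, x₀ ≤ x := fun x hx => Finset.min'_le _ _ hx
  have hq : ∀ x ∈ S, m * ((x - x₀) / m) = x - x₀ := by
    intro x hx
    refine Nat.mul_div_cancel' ?_
    have h3 := h2 x hx x₀ hx₀S
    have h4 : ((x - x₀ : ℕ) : ℤ) = (x : ℤ) - x₀ := Nat.cast_sub (hmin x hx)
    rw [← h4] at h3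
    exact_mod_cast h3
  have hc : S.card ≤ (Finset.range (lo / m + 1)).card := by
    refine Finset.card_le_card_of_injOn (fun x => (x - x₀) / m) (fun x hx => ?_)
      (fun x hx y hy hxy => ?_)
    · have hx' : x ∈ S := hx
      have h3 := h x hx'
      have h4 := h x₀ hx₀S
      rw [Finset.coe_range, Set.mem_Iio]
      exact Nat.lt_succ_of_le (Nat.div_le_div_right (by omega))
    · have hx' : x ∈ S := hx
      have hy' : y ∈ S := hy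
      have h3 := hq x hx'
      have h4 := hq y hy'
      have h5 : (x - x₀) / m = (y - x₀) / m := hxy
      rw [h5, h4] at h3
      have h6 := hmin x hx'
      have h7 := hmin y hy'
      omega
  rw [Finset.card_range] at hc
  calc (S.card : ℝ) ≤ ((lo / m + 1 : ℕ) : ℝ) := by exact_mod_cast hc
    _ = ((lo / m : ℕ) : ℝ) + 1 := by push_cast; rfl
    _ ≤ (lo : ℝ) / m + 1 := by
        have := @Nat.cast_div_le ℝ _ _ _ lo m
        linarith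

theorem dat_ext {d e : Dat} (h1 : d.α = e.α) (h2 : d.A₂ = e.A₂) (h3 : d.B₀ = e.B₀)
    (h4 : d.B₁ = e.B₁) (h5 : d.B₂ = e.B₂) (h6 : d.B₃ = e.B₃) (h7 : d.C = e.C) (h8 : d.a = e.a)
    (h9 : d.b = e.b) (h10 : d.c = e.c) (h11 : d.u = e.u) (h12 : d.v = e.v)
    (h13 : d.c' = e.c') : d = e := by
  cases d
  cases e
  simp only [Dat.mk.injEq]
  exact ⟨h1, h2, h3, h4, h5, h6, h7, h8, h9, h10, h11, h12, h13⟩

theorem castB (d : Dat) : ((d.B : ℕ) : ℤ) = d.B₀ * d.B₁ * d.B₂ * d.B₃ := by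
  unfold Dat.B
  push_cast
  ring

theorem castb' (d : Dat) : ((d.b' : ℕ) : ℤ) = d.B₁ * d.B₂ ^ 2 * d.B₃ ^ 3 * d.v := by
  unfold Dat.b'
  push_cast
  ring

/-- the integer `M` -/
def MM (d : Dat) : ℤ :=
  (d.A₂ : ℤ) * d.a ^ 2 * (d.B₂ * d.B₃ ^ 2 * d.v) - 1728 * d.B₀ * d.b ^ 2 * d.u

section
variable {L k X T W α₁ β₀ β₁ β₂ β₃ : ℕ}

theorem dvdM {d : Dat} (h : HD L k X T W α₁ β₀ β₁ β₂ β₃ d) : (d.C : ℤ) ∣ MM d := by
  have hcA : IsCoprime (d.C : ℤ) ((d.α * d.A₂ : ℕ) : ℤ) :=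
    Nat.isCoprime_iff_coprime.2 h.cAC.symm
  have hcB : IsCoprime (d.C : ℤ) ((d.B : ℕ) : ℤ) := Nat.isCoprime_iff_coprime.2 h.cBC.symm
  have e1 : (d.C : ℤ) ∣ d.a * (d.b' : ℕ) - d.a' * d.b := by
    refine hcA.dvd_of_dvd_mul_left ⟨d.c * (d.b' : ℕ) - d.c' * d.b, ?_⟩
    linear_combination ((d.b' : ℕ) : ℤ) * h.eq - (d.b : ℤ) * h.eq'
  obtain ⟨s, hs⟩ := e1
  have hcC : IsCoprime (d.C : ℤ) ((d.α : ℤ) * (d.B₁ * d.B₂ * d.B₃)) := by
    refine IsCoprime.mul_right ?_ ?_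
    · rw [Nat.cast_mul] at hcA
      exact hcA.of_mul_right_left
    · rw [castB] at hcB
      have e2 : (d.B₀ : ℤ) * d.B₁ * d.B₂ * d.B₃ = d.B₀ * (d.B₁ * d.B₂ * d.B₃) := by ring
      rw [e2] at hcB
      exact hcB.of_mul_right_right
  refine hcC.dvd_of_dvd_mul_left
    ⟨(d.α : ℤ) * d.A₂ * d.a * s + d.a' * d.b * d.c, ?_⟩
  have heq := h.eq
  rw [castB] at heq
  rw [castb'] at hs
  unfold Dat.a' at hs ⊢
  push_cast at heq
  unfold MM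
  linear_combination ((d.α : ℤ) * d.A₂ * d.a) * hs + ((d.α : ℤ) * d.u * d.b) * heq

theorem copm {d : Dat} (h : HD L k X T W α₁ β₀ β₁ β₂ β₃ d) :
    IsCoprime ((d.A₂ : ℤ) * d.a) ((d.B₀ * d.B₂ * d.B₃ : ℕ) : ℤ) := by
  have h1 := h.cop
  rw [castB] at h1
  have e1 : ((d.α * d.A₂ : ℕ) : ℤ) * d.a = d.α * (d.A₂ * d.a) := by push_cast; ring
  have e2 : (d.B₀ : ℤ) * d.B₁ * d.B₂ * d.B₃ * d.b =
      ((d.B₀ * d.B₂ * d.B₃ : ℕ) : ℤ) * (d.B₁ * d.b) := by push_cast; ring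
  rw [e1, e2] at h1
  exact h1.of_mul_left_right.of_mul_right_left

/-- the last step: the values of `α` -/
theorem last {U : Finset Dat} (hU : ∀ d ∈ U, HD L k X T W α₁ β₀ β₁ β₂ β₃ d)
    (h0 : 1 ≤ β₀) (h2 : 1 ≤ β₂) (h3 : 1 ≤ β₃)
    (hs : ∀ d ∈ U, ∀ e ∈ U, d.a = e.a ∧ d.b = e.b ∧ d.c = e.c ∧ d.A₂ = e.A₂ ∧ d.B₀ = e.B₀ ∧
      d.B₂ = e.B₂ ∧ d.B₃ = e.B₃ ∧ d.u = e.u ∧ d.v = e.v ∧ d.C = e.C) :
    (U.card : ℝ) ≤ (α₁ : ℝ) / (β₀ * β₂ * β₃) + 1 := by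
  classical
  rcases U.eq_empty_or_nonempty with rfl | ⟨d₀, hd₀⟩
  · rw [Finset.card_empty, Nat.cast_zero]
    positivity
  have key : ∀ d ∈ U, ∀ e ∈ U, ((e.A₂ : ℤ) * e.a) * ((d.α : ℤ) - e.α) =
      ((e.B₀ * e.B₂ * e.B₃ : ℕ) : ℤ) * (1728 * e.b * ((d.B₁ : ℤ) - e.B₁)) := by
    intro d hd e he
    obtain ⟨g1, g2, g3, g4, g5, g6, g7, g8, g9, g10⟩ := hs d hd e he
    have p1 := (hU d hd).eq
    have p2 := (hU e he).eq
    rw [castB] at p1 p2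
    rw [g1, g2, g3, g4, g5, g6, g7, g10] at p1
    push_cast at p1 p2 ⊢
    linear_combination p1 - p2
  have hm0 : 1 ≤ d₀.B₀ * d₀.B₂ * d₀.B₃ :=
    Nat.mul_pos (Nat.mul_pos (h0.trans (hU d₀ hd₀).h0.1) (h2.trans (hU d₀ hd₀).h2.1))
      (h3.trans (hU d₀ hd₀).h3.1)
  have hinj : Set.InjOn (fun d : Dat => d.α) (U : Set Dat) := by
    intro d hd e he hde
    have hd' : d ∈ U := hd
    have he' : e ∈ U := he
    have hα : d.α = e.α := hde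
    obtain ⟨g1, g2, g3, g4, g5, g6, g7, g8, g9, g10⟩ := hs d hd' e he'
    have k1 := key d hd' e he'
    rw [hα, sub_self, mul_zero] at k1
    have hme : ((e.B₀ * e.B₂ * e.B₃ : ℕ) : ℤ) ≠ 0 := by
      rw [← g5, ← g6, ← g7]
      have : d.B₀ * d.B₂ * d.B₃ ≠ 0 :=
        mul_ne_zero (mul_ne_zero (by have := (hU d hd').h0.1; omega)
          (by have := (hU d hd').h2.1; omega)) (by have := (hU d hd').h3.1; omega)
      exact_mod_cast this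
    have hb : (1728 * (e.b : ℤ)) ≠ 0 :=
      mul_ne_zero (by norm_num) (by exact_mod_cast (hU e he').b0)
    have k2 : (d.B₁ : ℤ) - e.B₁ = 0 := by
      rcases mul_eq_zero.1 k1.symm with h | h
      · exact absurd h hme
      · rcases mul_eq_zero.1 h with h | h
        · exact absurd h hb
        · exact h
    have k3 : d.B₁ = e.B₁ := by
      have : (d.B₁ : ℤ) = e.B₁ := by linarith
      exact_mod_cast this
    have hC : ((e.C : ℕ) : ℤ) ≠ 0 := by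
      exact_mod_cast (hU e he').sqC.ne_zero
    have k4 : d.c' = e.c' := by
      have p1 := (hU d hd').eq'
      have p2 := (hU e he').eq'
      have q1 : d.B = e.B := by unfold Dat.B; rw [g5, k3, g6, g7]
      have q2 : d.b' = e.b' := by unfold Dat.b'; rw [k3, g6, g7, g9]
      have q3 : d.a' = e.a' := by unfold Dat.a'; rw [hα, g8]
      rw [q1, q2, q3, hα, g4, g10] at p1
      have p3 : (e.C : ℤ) * (d.c' - e.c') = 0 := by linear_combination p2 - p1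
      rcases mul_eq_zero.1 p3 with h | h
      · exact absurd h hC
      · linarith
    exact dat_ext hα g4 g5 k3 g6 g7 g10 g1 g2 g3 g8 g9 k4
  have hc : ((U.image (fun d : Dat => d.α)).card : ℝ) ≤
      (α₁ : ℝ) / ((d₀.B₀ * d₀.B₂ * d₀.B₃ : ℕ) : ℝ) + 1 := by
    refine card_class hm0 (fun x hx => ?_) (fun x hx y hy => ?_)
    · obtain ⟨d, hd, rfl⟩ := Finset.mem_image.1 hx
      exact (hU d hd).hα
    · obtain ⟨d, hd, rfl⟩ := Finset.mem_image.1 hx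
      obtain ⟨e, he, rfl⟩ := Finset.mem_image.1 hy
      have k1 := key d hd e he
      obtain ⟨g1, g2, g3, g4, g5, g6, g7, g8, g9, g10⟩ := hs e he d₀ hd₀
      have k2 := copm (hU e he)
      rw [g5, g6, g7] at k1 k2
      exact k2.symm.dvd_of_dvd_mul_left ⟨_, k1⟩
  rw [Finset.card_image_of_injOn hinj] at hc
  refine hc.trans (add_le_add_left ?_ 1)
  have hβ : (0 : ℝ) < (β₀ : ℝ) * β₂ * β₃ := by
    have a1 : (0 : ℝ) < β₀ := by exact_mod_cast h0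
    have a2 : (0 : ℝ) < β₂ := by exact_mod_cast h2
    have a3 : (0 : ℝ) < β₃ := by exact_mod_cast h3
    positivity
  refine div_le_div_of_nonneg_left (Nat.cast_nonneg _) hβ ?_
  have : β₀ * β₂ * β₃ ≤ d₀.B₀ * d₀.B₂ * d₀.B₃ :=
    Nat.mul_le_mul (Nat.mul_le_mul (hU d₀ hd₀).h0.1 (hU d₀ hd₀).h2.1) (hU d₀ hd₀).h3.1
  exact_mod_cast this

/-- sizes -/
theorem sizes {d : Dat} (h : HD L k X T W α₁ β₀ β₁ β₂ β₃ d) (_hα : 1 ≤ α₁) (h0 : 1 ≤ β₀)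
    (h1 : 1 ≤ β₁) (h2 : 1 ≤ β₂) (h3 : 1 ≤ β₃) :
    1 ≤ d.A₂ ∧ α₁ * d.A₂ ≤ X ∧ α₁ * d.u.natAbs ≤ W ∧ β₁ * β₂ ^ 2 * β₃ ^ 3 * d.v ≤ W ∧
    β₀ * β₁ * β₂ * β₃ ≤ X ∧ d.B₀ ≤ X ∧ d.B₃ ≤ X ∧ d.B₂ * d.B₃ ^ 2 * d.v ≤ W := by
  have e0 : 1 ≤ d.B₀ := h0.trans h.h0.1
  have e1 : 1 ≤ d.B₁ := h1.trans h.h1.1
  have e2 : 1 ≤ d.B₂ := h2.trans h.h2.1
  have e3 : 1 ≤ d.B₃ := h3.trans h.h3.1
  refine ⟨?_, (Nat.mul_le_mul_right _ h.hα.1).trans h.hA, ?_, ?_, ?_, ?_, ?_, ?_⟩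
  · rcases Nat.eq_zero_or_pos d.A₂ with h4 | h4
    · have := h.A1
      rw [h4] at this
      omega
    · exact h4
  · have h4 := h.wa
    unfold Dat.a' at h4
    rw [Int.natAbs_mul, Int.natAbs_natCast] at h4
    exact (Nat.mul_le_mul_right _ h.hα.1).trans h4
  · refine le_trans ?_ h.wb
    unfold Dat.b'
    exact Nat.mul_le_mul_right _ (Nat.mul_le_mul (Nat.mul_le_mul h.h1.1
      (Nat.pow_le_pow_left h.h2.1 2)) (Nat.pow_le_pow_left h.h3.1 3))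
  · refine le_trans ?_ h.hB
    unfold Dat.B
    exact Nat.mul_le_mul (Nat.mul_le_mul (Nat.mul_le_mul h.h0.1 h.h1.1) h.h2.1) h.h3.1
  · refine le_trans ?_ h.hB
    unfold Dat.B
    calc d.B₀ ≤ d.B₀ * (d.B₁ * d.B₂ * d.B₃) :=
          Nat.le_mul_of_pos_right _ (Nat.mul_pos (Nat.mul_pos e1 e2) e3)
      _ = _ := by ring
  · refine le_trans ?_ h.hB
    unfold Dat.B
    exact Nat.le_mul_of_pos_left _ (Nat.mul_pos (Nat.mul_pos e0 e1) e2)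
  · refine le_trans ?_ h.wb
    unfold Dat.b'
    calc d.B₂ * d.B₃ ^ 2 * d.v ≤ (d.B₂ * d.B₃ ^ 2 * d.v) * (d.B₁ * d.B₂ * d.B₃) :=
          Nat.le_mul_of_pos_right _ (Nat.mul_pos (Nat.mul_pos e1 e2) e3)
      _ = _ := by ring

/-- the values of `C` -/
theorem stepC {Z : ℕ} {E : ℝ} (hE : Un Z E) (hp : Pr Z L k X T W α₁ β₀ β₁ β₂ β₃)
    {U : Finset Dat} (hU : ∀ d ∈ U, HD L k X T W α₁ β₀ β₁ β₂ β₃ d ∧ MM d ≠ 0)
    (hs : ∀ d ∈ U, ∀ e ∈ U, d.a = e.a ∧ d.b = e.b ∧ d.c = e.c ∧ d.A₂ = e.A₂ ∧ d.B₀ = e.B₀ ∧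
      d.B₂ = e.B₂ ∧ d.B₃ = e.B₃ ∧ d.u = e.u ∧ d.v = e.v) :
    (U.card : ℝ) ≤ E * ((α₁ : ℝ) / (β₀ * β₂ * β₃) + 1) := by
  classical
  have hE1 := hE.one
  rcases U.eq_empty_or_nonempty with rfl | ⟨d₀, hd₀⟩
  · rw [Finset.card_empty, Nat.cast_zero]
    positivity
  have hM : ∀ d ∈ U, MM d = MM d₀ := by
    intro d hd
    obtain ⟨g1, g2, g3, g4, g5, g6, g7, g8, g9⟩ := hs d hd d₀ hd₀
    unfold MM
    rw [g1, g2, g4, g5, g6, g7, g8, g9]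
  obtain ⟨h, hne⟩ := hU d₀ hd₀
  obtain ⟨s1, s2, s3, s4, s5, s6, s7, s8⟩ := sizes h hp.α1 hp.β0 hp.β1 hp.β2 hp.β3
  have hZ : (MM d₀).natAbs ≤ Z ^ 10 := by
    have b1 : (MM d₀).natAbs ≤ d₀.A₂ * d₀.a.natAbs ^ 2 * (d₀.B₂ * d₀.B₃ ^ 2 * d₀.v) +
        1728 * d₀.B₀ * d₀.b ^ 2 * d₀.u.natAbs := by
      unfold MM
      refine (Int.natAbs_sub_le _ _).trans (le_of_eq ?_)
      simp [Int.natAbs_mul, Int.natAbs_pow]
    have b2 : d₀.A₂ ≤ X := (Nat.le_mul_of_pos_left _ hp.α1).trans s2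
    have b3 : d₀.u.natAbs ≤ W := (Nat.le_mul_of_pos_left _ hp.α1).trans s3
    have hZ0 := hp.Z0
    calc (MM d₀).natAbs ≤ X * T ^ 2 * W + 1728 * X * T ^ 2 * W := by
          refine b1.trans (Nat.add_le_add ?_ ?_)
          · exact Nat.mul_le_mul (Nat.mul_le_mul b2 (Nat.pow_le_pow_left h.ta 2)) s8
          · exact Nat.mul_le_mul (Nat.mul_le_mul (Nat.mul_le_mul_left _ s6)
              (Nat.pow_le_pow_left h.tb 2)) b3
      _ = (1729 * X) * T ^ 2 * W := by ring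
      _ ≤ Z * Z ^ 2 * Z := Nat.mul_le_mul (Nat.mul_le_mul hp.XZ
            (Nat.pow_le_pow_left hp.TZ 2)) hp.WZ
      _ = Z ^ 4 := by ring
      _ ≤ Z ^ 10 := Nat.pow_le_pow_right (by omega) (by norm_num)
  refine fib U (fun d => d.C) (MM d₀).natAbs.divisors (by positivity)
    (hE.dv _ (Int.natAbs_ne_zero.2 hne) hZ) (fun d hd => ?_) (fun C _ => ?_)
  · rw [Nat.mem_divisors]
    refine ⟨?_, Int.natAbs_ne_zero.2 hne⟩
    rw [← hM d hd]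
    exact Int.natCast_dvd.1 (dvdM (hU d hd).1)
  · refine last (fun d hd => (hU d (Finset.mem_filter.1 hd).1).1) hp.β0 hp.β2 hp.β3
      (fun d hd e he => ?_)
    obtain ⟨x1, x2⟩ := Finset.mem_filter.1 hd
    obtain ⟨y1, y2⟩ := Finset.mem_filter.1 he
    obtain ⟨g1, g2, g3, g4, g5, g6, g7, g8, g9⟩ := hs d x1 e y1
    exact ⟨g1, g2, g3, g4, g5, g6, g7, g8, g9, x2.trans y2.symm⟩

/-- the values of `v` -/
theorem stepv {Z : ℕ} {E : ℝ} (hE : Un Z E) (hp : Pr Z L k X T W α₁ β₀ β₁ β₂ β₃)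
    {U : Finset Dat} (hU : ∀ d ∈ U, HD L k X T W α₁ β₀ β₁ β₂ β₃ d ∧ MM d ≠ 0)
    (hs : ∀ d ∈ U, ∀ e ∈ U, d.a = e.a ∧ d.b = e.b ∧ d.c = e.c ∧ d.A₂ = e.A₂ ∧ d.B₀ = e.B₀ ∧
      d.B₂ = e.B₂ ∧ d.B₃ = e.B₃ ∧ d.u = e.u) :
    (U.card : ℝ) ≤ (E * ((W : ℝ) / (β₁ * β₂ ^ 2 * β₃ ^ 3)) ^ (1 / (k : ℝ))) *
      (E * ((α₁ : ℝ) / (β₀ * β₂ * β₃) + 1)) := by
  classical
  have hE1 := hE.one
  rcases U.eq_empty_or_nonempty with rfl | ⟨d₀, hd₀⟩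
  · rw [Finset.card_empty, Nat.cast_zero]
    positivity
  obtain ⟨h, hne⟩ := hU d₀ hd₀
  obtain ⟨s1, s2, s3, s4, s5, s6, s7, s8⟩ := sizes h hp.α1 hp.β0 hp.β1 hp.β2 hp.β3
  set D := β₁ * β₂ ^ 2 * β₃ ^ 3 with hD
  have hD1 : 1 ≤ D := Nat.mul_pos (Nat.mul_pos hp.β1 (pow_pos hp.β2 2)) (pow_pos hp.β3 3)
  have hZ0 := hp.Z0
  have hRW : W / D ≤ W := Nat.div_le_self _ _
  have hc : ((TB k (6 * (d₀.B₃ * d₀.b)) (W / D)).card : ℝ) ≤
      E * ((W : ℝ) / (β₁ * β₂ ^ 2 * β₃ ^ 3)) ^ (1 / (k : ℝ)) := by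
    refine (card_TB hE hp.k1 ?_ ?_ ?_).trans ?_
    · have a1 : 1 ≤ d₀.B₃ := hp.β3.trans h.h3.1
      have a2 : 1 ≤ d₀.b := Nat.pos_of_ne_zero h.b0
      exact Nat.mul_pos (by norm_num) (Nat.mul_pos a1 a2)
    · calc 6 * (d₀.B₃ * d₀.b) * (W / D) ≤ 6 * (X * T) * W :=
            Nat.mul_le_mul (Nat.mul_le_mul_left _ (Nat.mul_le_mul s7 h.tb)) hRW
        _ ≤ (1729 * X) * T * W := by
            refine Nat.mul_le_mul_right _ ?_
            rw [← mul_assoc]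
            exact Nat.mul_le_mul_right _ (Nat.mul_le_mul_right _ (by norm_num))
        _ ≤ Z * Z * Z := Nat.mul_le_mul (Nat.mul_le_mul hp.XZ hp.TZ) hp.WZ
        _ = Z ^ 3 := by ring
        _ ≤ Z ^ 10 := Nat.pow_le_pow_right (by omega) (by norm_num)
    · exact (hRW.trans hp.WZ).trans (Nat.le_self_pow (by norm_num) Z)
    · refine mul_le_mul_of_nonneg_left ?_ (by linarith)
      refine Real.rpow_le_rpow (Nat.cast_nonneg _) ?_ (by positivity)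
      have := @Nat.cast_div_le ℝ _ _ _ W D
      refine this.trans (le_of_eq ?_)
      rw [hD]
      push_cast
      rfl
  refine fib U (fun d => d.v) (TB k (6 * (d₀.B₃ * d₀.b)) (W / D)) (by positivity) hc
    (fun d hd => ?_) (fun v _ => ?_)
  · obtain ⟨g1, g2, g3, g4, g5, g6, g7, g8⟩ := hs d hd d₀ hd₀
    obtain ⟨t1, t2, t3, t4, t5, t6, t7, t8⟩ := sizes (hU d hd).1 hp.α1 hp.β0 hp.β1 hp.β2 hp.β3
    unfold TB
    rw [Finset.mem_filter, Finset.mem_Icc, Nat.le_div_iff_mul_le (by omega)]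
    refine ⟨⟨Nat.pos_of_ne_zero (hU d hd).1.v0, ?_⟩, ?_⟩
    · rw [mul_comm]
      exact t4
    · have := (hU d hd).1.isB
      rw [g7, g2] at this
      exact this
  · refine stepC hE hp (fun d hd => hU d (Finset.mem_filter.1 hd).1) (fun d hd e he => ?_)
    obtain ⟨x1, x2⟩ := Finset.mem_filter.1 hd
    obtain ⟨y1, y2⟩ := Finset.mem_filter.1 he
    obtain ⟨g1, g2, g3, g4, g5, g6, g7, g8⟩ := hs d x1 e y1
    exact ⟨g1, g2, g3, g4, g5, g6, g7, g8, x2.trans y2.symm⟩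

end

theorem q2 : S_Q2 := by
  classical
  refine ⟨18, by norm_num, ?_⟩
  intro Z E hE L k X T W α₁ β₀ β₁ β₂ β₃ hp S hS
  have hE1 := hE.one
  have a1 : (0 : ℝ) < α₁ := by exact_mod_cast hp.α1
  have b0 : (0 : ℝ) < β₀ := by exact_mod_cast hp.β0
  have b1 : (0 : ℝ) < β₁ := by exact_mod_cast hp.β1
  have b2 : (0 : ℝ) < β₂ := by exact_mod_cast hp.β2
  have b3 : (0 : ℝ) < β₃ := by exact_mod_cast hp.β3
  have hFF : 0 ≤ FF k W α₁ β₁ β₂ β₃ := by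
    unfold FF
    positivity
  rcases S.eq_empty_or_nonempty with rfl | ⟨d₀, hd₀⟩
  · rw [Finset.card_empty, Nat.cast_zero]
    positivity
  have hS' : ∀ d ∈ S, HD L k X T W α₁ β₀ β₁ β₂ β₃ d ∧ MM d ≠ 0 := hS
  obtain ⟨s1, s2, s3, s4, s5, s6, s7, s8⟩ := sizes (hS' d₀ hd₀).1 hp.α1 hp.β0 hp.β1 hp.β2 hp.β3
  have hZ0 := hp.Z0
  set x : ℝ := ((W : ℝ) / α₁) ^ (1 / 3 : ℝ) with hx
  set y : ℝ := ((W : ℝ) / (β₁ * β₂ ^ 2 * β₃ ^ 3)) ^ (1 / (k : ℝ)) with hy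
  have hx0 : 0 ≤ x := by positivity
  have hy0 : 0 ≤ y := by positivity
  have hTA : ((TA L (fun n => n = 1) (W / α₁)).card : ℝ) ≤ 2 * E * x := by
    have h1 := card_TA (Z := Z) hE (L := L) (R := W / α₁) (α₁ := 1) (P := fun n => n = 1)
      (F := {1}) (n := 1) hp.L1 (hp.LZ.trans (Nat.le_self_pow (by norm_num) Z))
      (((Nat.div_le_self _ _).trans hp.WZ).trans (Nat.le_self_pow (by norm_num) Z)) le_rfl
      (by simp) (fun α hα => by simp [hα])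
    refine h1.trans ?_
    rw [Nat.cast_one, div_one, one_mul]
    refine mul_le_mul_of_nonneg_left ?_ (by linarith)
    exact Real.rpow_le_rpow (Nat.cast_nonneg _) (@Nat.cast_div_le ℝ _ _ _ W α₁) (by positivity)
  set T₁ : Finset (ℤ × ℕ × ℤ × ℕ × ℕ × ℕ × ℕ × ℤ) :=
    Finset.Icc (-(T : ℤ)) T ×ˢ Finset.Icc 1 T ×ˢ Finset.Icc (-(T : ℤ)) T ×ˢ
      Finset.Icc 1 (X / α₁) ×ˢ Finset.Ico β₀ (2 * β₀) ×ˢ Finset.Ico β₂ (2 * β₂) ×ˢ
      Finset.Ico β₃ (2 * β₃) ×ˢ TA L (fun n => n = 1) (W / α₁) with hT₁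
  have hIcc : ((Finset.Icc (-(T : ℤ)) T).card : ℝ) ≤ 3 * T := by
    rw [Int.card_Icc]
    have h1 : ((T : ℤ) + 1 - -(T : ℤ)).toNat = 2 * T + 1 := by omega
    rw [h1]
    have h2 : 2 * T + 1 ≤ 3 * T := by have := hp.T1; omega
    exact_mod_cast h2
  have hcard : (T₁.card : ℝ) ≤ 3 * T * (T * (3 * T * ((X : ℝ) / α₁ * (β₀ * (β₂ * (β₃ *
      (2 * E * x))))))) := by
    rw [hT₁]
    simp only [Finset.card_product, Nat.cast_mul]
    have c1 : ((Finset.Icc 1 T).card : ℝ) ≤ T := by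
      rw [Nat.card_Icc, Nat.add_sub_cancel]
    have c2 : ((Finset.Icc 1 (X / α₁)).card : ℝ) ≤ (X : ℝ) / α₁ := by
      rw [Nat.card_Icc, Nat.add_sub_cancel]
      exact Nat.cast_div_le
    have c3 : ∀ β : ℕ, ((Finset.Ico β (2 * β)).card : ℝ) ≤ β := by
      intro β
      rw [Nat.card_Ico]
      have : 2 * β - β = β := by omega
      rw [this]
    gcongr
    · exact_mod_cast c3 β₀
    · exact_mod_cast c3 β₂
    · exact_mod_cast c3 β₃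
  have main := fib S (fun d : Dat => (d.a, d.b, d.c, d.A₂, d.B₀, d.B₂, d.B₃, d.u)) T₁
    (n := (E * y) * (E * ((α₁ : ℝ) / (β₀ * β₂ * β₃) + 1))) (by positivity) hcard
    (fun d hd => ?_) (fun t _ => ?_)
  · refine main.trans ?_
    have e1 : (β₀ : ℝ) * β₂ * β₃ ≤ X / β₁ := by
      rw [le_div_iff₀ b1]
      have : ((β₀ * β₁ * β₂ * β₃ : ℕ) : ℝ) ≤ X := by exact_mod_cast s5
      push_cast at this
      linarith
    have e2 : (X : ℝ) / α₁ * (β₀ * β₂ * β₃) * ((α₁ : ℝ) / (β₀ * β₂ * β₃) + 1) ≤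
        X + (X : ℝ) ^ 2 / (α₁ * β₁) := by
      have e3 : (X : ℝ) / α₁ * (β₀ * β₂ * β₃) * ((α₁ : ℝ) / (β₀ * β₂ * β₃) + 1) =
          X + X / α₁ * (β₀ * β₂ * β₃) := by
        field_simp
      rw [e3]
      have e4 : (X : ℝ) / α₁ * (β₀ * β₂ * β₃) ≤ X / α₁ * (X / β₁) :=
        mul_le_mul_of_nonneg_left e1 (by positivity)
      have e5 : (X : ℝ) / α₁ * (X / β₁) = (X : ℝ) ^ 2 / (α₁ * β₁) := by
        field_simp
      rw [e5] at e4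
      linarith
    have hF : FF k W α₁ β₁ β₂ β₃ = x * y := rfl
    rw [hF]
    calc 3 * (T : ℝ) * (T * (3 * T * ((X : ℝ) / α₁ * (β₀ * (β₂ * (β₃ * (2 * E * x))))))) *
          (E * y * (E * ((α₁ : ℝ) / (β₀ * β₂ * β₃) + 1)))
        = 18 * E ^ 3 * (T : ℝ) ^ 3 * (x * y) *
          ((X : ℝ) / α₁ * (β₀ * β₂ * β₃) * ((α₁ : ℝ) / (β₀ * β₂ * β₃) + 1)) := by ring
      _ ≤ 18 * E ^ 12 * (T : ℝ) ^ 3 * (x * y) * (X + (X : ℝ) ^ 2 / (α₁ * β₁)) := by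
          gcongr
          norm_num
  · have h := (hS' d hd).1
    obtain ⟨t1, t2, t3, t4, t5, t6, t7, t8⟩ := sizes h hp.α1 hp.β0 hp.β1 hp.β2 hp.β3
    have ha := h.ta
    have hc := h.tc
    have hα1 := hp.α1
    rw [hT₁]
    simp only [Finset.mem_product, Finset.mem_Icc, Finset.mem_Ico]
    refine ⟨⟨by omega, by omega⟩, ⟨Nat.pos_of_ne_zero h.b0, h.tb⟩, ⟨by omega, by omega⟩,
      ⟨t1, ?_⟩, h.h0, h.h2, h.h3, ?_⟩
    · rw [Nat.le_div_iff_mul_le hα1, mul_comm]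
      exact t2
    · unfold TA
      rw [Finset.mem_filter, Finset.mem_Icc]
      have h4 : d.u.natAbs ≤ W / α₁ := by
        rw [Nat.le_div_iff_mul_le hα1, mul_comm]
        exact t3
      exact ⟨⟨by omega, by omega⟩, h.u0, h.isA⟩
  · refine stepv hE hp (fun d hd => hS' d (Finset.mem_filter.1 hd).1) (fun d hd e he => ?_)
    have x2 := (Finset.mem_filter.1 hd).2
    have y2 := (Finset.mem_filter.1 he).2
    have z := x2.trans y2.symm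
    simp only [Prod.mk.injEq] at z
    exact z

end Pool.Agent.H27.QQ
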